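import Pool.Agent.Run7.h10.BM.DefA

/-!
# Families with big connected monodromy
-/

set_option autoImplicit false
set_option linter.unusedSectionVars false

open Matrix NumberField Filter

namespace Pool.Agent.Run7.h10.BM

open Pool.Agent.Y890.MV
open Pool.Agent.Y890.SP (Qbar ioQ ioQ_coe)
open Pool.Agent.Y124 (Cov)

variable {X : Type} {m : ℕ}

/-- the polynomial with `2 π i` in place of `μ` -/
noncomputable def conv : MvPolynomial (X ⊕ Option (Fin m × Fin m)) Qbar →+*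
    MvPolynomial (Fin m × Fin m) (MvPolynomial X ℂ) :=
  MvPolynomial.eval₂Hom (((MvPolynomial.C).comp MvPolynomial.C).comp (algebraMap Qbar ℂ))
    (Sum.elim (fun j => MvPolynomial.C (MvPolynomial.X j))
      (fun o => o.elim (MvPolynomial.C (MvPolynomial.C tpi)) fun q => MvPolynomial.X q))

theorem evX_conv (x : X → ℂ) (Y : Matrix (Fin m) (Fin m) ℂ) (e : MvPolynomial (X ⊕ Option (Fin m × Fin m)) Qbar) :
    evX x (fun q => Y q.1 q.2) (conv e) = MvPolynomial.aeval (pt3 x tpi Y) e := by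
  have h1 : evX x (fun q : Fin m × Fin m => Y q.1 q.2) (conv e) =
      (MvPolynomial.eval₂Hom (MvPolynomial.eval x) (fun q : Fin m × Fin m => Y q.1 q.2)) (conv e) := rfl
  refine h1.trans ((MvPolynomial.hom_eval₂ e (((MvPolynomial.C).comp MvPolynomial.C).comp (algebraMap Qbar ℂ))
    (MvPolynomial.eval₂Hom (MvPolynomial.eval x) (fun q : Fin m × Fin m => Y q.1 q.2)) _).trans ?_)
  rw [MvPolynomial.aeval_def]
  congr 1
  · refine RingHom.ext fun r => ?_
    simp
  · funext o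
    rcases o with j | (_ | q)
    · simp [pt3]
    · simp [pt3]
    · simp [pt3]

/-- the determinant as a polynomial -/
noncomputable def detP (R : Type) [CommRing R] (m : ℕ) : MvPolynomial (Fin m × Fin m) R :=
  (Matrix.of fun a b : Fin m => (MvPolynomial.X (a, b) : MvPolynomial (Fin m × Fin m) R)).det

theorem detP_hom {R S : Type} [CommRing R] [CommRing S] (f : MvPolynomial (Fin m × Fin m) R →+* S) :
    f (detP R m) = (Matrix.of fun a b : Fin m => f (MvPolynomial.X (a, b))).det := by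
  rw [detP, RingHom.map_det]
  rfl

/-- substitution of a product -/
noncomputable def sbA (A : MvPolynomial (Fin m × Fin m) ℂ) (B : Matrix (Fin m) (Fin m) ℂ) :
    MvPolynomial (Fin m × Fin m) ℂ :=
  MvPolynomial.bind₁ (fun q => ∑ k, MvPolynomial.X (q.1, k) * MvPolynomial.C (B k q.2)) A

theorem sbA_eval (A : MvPolynomial (Fin m × Fin m) ℂ) (B M : Matrix (Fin m) (Fin m) ℂ) :
    MvPolynomial.eval (fun q => M q.1 q.2) (sbA A B) = MvPolynomial.eval (fun q => (M * B) q.1 q.2) A := by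
  have h1 := MvPolynomial.eval₂Hom_bind₁ (RingHom.id ℂ) (fun q : Fin m × Fin m => M q.1 q.2)
    (fun q : Fin m × Fin m => ∑ k, MvPolynomial.X (q.1, k) * MvPolynomial.C (B k q.2)) A
  refine h1.trans ?_
  congr 2
  funext q
  simp [Matrix.mul_apply]

theorem BigFam.hit [Fintype X] (F : BigFam X m) {x : X → ℂ} (hx : x ∈ F.U) {Y : Matrix (Fin m) (Fin m) ℂ}
    (hY : (Y, tpi) ∈ torsor F.E x) (A : MvPolynomial (Fin m × Fin m) ℂ)
    (hA : ∀ γ ∈ F.Γ, MvPolynomial.eval (fun q => (γ * F.P x) q.1 q.2) A = 0) :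
    MvPolynomial.eval (fun q => Y q.1 q.2) A = 0 := by
  have h1 := F.big x hx Y hY (sbA A (F.P x)) (fun γ hγ => by rw [sbA_eval]; exact hA γ hγ)
  rw [sbA_eval] at h1
  have hu : IsUnit (F.P x).det := isUnit_iff_ne_zero.2 (F.mem x hx).1
  rw [Matrix.mul_assoc, nonsing_inv_mul _ hu, mul_one] at h1
  exact h1

theorem BigFam.inv [Fintype X] (F : BigFam X m) (p : MvPolynomial (Fin m × Fin m) (MvPolynomial X ℂ))
    (hp : ∀ x ∈ F.U, evX x (fun q => F.P x q.1 q.2) p = 0) {x : X → ℂ} (hx : x ∈ F.U) {Y : Matrix (Fin m) (Fin m) ℂ}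
    (hY : (Y, tpi) ∈ torsor F.E x) : evX x (fun q => Y q.1 q.2) p = 0 := by
  rw [← evX_eval]
  refine F.hit hx hY _ fun γ hγ => ?_
  rw [evX_eval]
  exact F.mon γ hγ p hp x hx

theorem BigFam.orbit [Fintype X] (F : BigFam X m) {x : X → ℂ} (hx : x ∈ F.U) {γ : Matrix (Fin m) (Fin m) ℂ}
    (hγ : γ ∈ F.Γ) : (γ * F.P x, tpi) ∈ torsor F.E x := by
  refine ⟨?_, tpi_ne, fun e he => ?_⟩
  · show (γ * F.P x).det ≠ 0
    rw [Matrix.det_mul]
    exact mul_ne_zero (F.unit γ hγ) (F.mem x hx).1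
  · show MvPolynomial.aeval (pt3 x tpi (γ * F.P x)) e = 0
    rw [← evX_conv]
    refine F.mon γ hγ _ (fun y hy => ?_) x hx
    rw [evX_conv]
    exact (F.mem y hy).2.2 e he

/-- the system of equations -/
def BigFam.sys [Fintype X] (F : BigFam X m) : Set (MvPolynomial (Option (Fin m × Fin m)) (MvPolynomial X ℂ)) :=
  insert (MvPolynomial.X none * MvPolynomial.rename some (detP (MvPolynomial X ℂ) m) - 1)
    ((fun e => MvPolynomial.rename some (conv e)) '' F.E)

theorem evX_some (x : X → ℂ) (z : Option (Fin m × Fin m) → ℂ) (p : MvPolynomial (Fin m × Fin m) (MvPolynomial X ℂ)) :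
    evX x z (MvPolynomial.rename some p) = evX x (fun q => z (some q)) p := MvPolynomial.eval₂_rename _ _ _ _

theorem BigFam.sys_iff [Fintype X] (F : BigFam X m) (x : X → ℂ) (z : Option (Fin m × Fin m) → ℂ) :
    (∀ E ∈ F.sys, evX x z E = 0) ↔
      z none * (Matrix.of fun a b => z (some (a, b))).det = 1 ∧
        (Matrix.of (fun a b => z (some (a, b))), tpi) ∈ torsor F.E x := by
  have h1 : evX x z (MvPolynomial.X none * MvPolynomial.rename some (detP (MvPolynomial X ℂ) m) - 1) =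
      z none * (Matrix.of fun a b => z (some (a, b))).det - 1 := by
    have h2 : ∀ p, evX x z p = MvPolynomial.eval₂Hom (MvPolynomial.eval x) z p := fun p => rfl
    rw [h2, map_sub, map_mul, map_one, MvPolynomial.eval₂Hom_X', ← h2, evX_some]
    congr 2
    have h3 := detP_hom (MvPolynomial.eval₂Hom (MvPolynomial.eval x) (fun q : Fin m × Fin m => z (some q)))
    refine h3.trans ?_
    congr 1
    ext a b
    simp
  have h4 : ∀ e, evX x z (MvPolynomial.rename some (conv e)) =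
      MvPolynomial.aeval (pt3 x tpi (Matrix.of fun a b => z (some (a, b)))) e := by
    intro e
    rw [evX_some, ← evX_conv]
    rfl
  constructor
  · intro h
    have h5 := h _ (Set.mem_insert _ _)
    rw [h1, sub_eq_zero] at h5
    refine ⟨h5, ?_, tpi_ne, fun e he => ?_⟩
    · intro h0
      rw [h0, mul_zero] at h5
      exact zero_ne_one h5
    · have h6 := h _ (Set.mem_insert_of_mem _ (Set.mem_image_of_mem _ he))
      rw [h4] at h6
      exact h6
  · rintro ⟨h5, h6⟩ E hE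
    rcases hE with rfl | ⟨e, he, rfl⟩
    · rw [h1, h5, sub_self]
    · rw [h4]
      exact h6.2.2 e he

theorem BigFam.torA [Fintype X] (F : BigFam X m) :
    TorA F.U (fun (q : Fin m × Fin m) x => F.P x q.1 q.2) F.sys (fun q => MvPolynomial.X (some q)) := by
  have hX : ∀ (x : X → ℂ) (z : Option (Fin m × Fin m) → ℂ) (q : Fin m × Fin m),
      evX x z (MvPolynomial.X (some q)) = z (some q) := fun x z q => MvPolynomial.eval₂_X _ _ _
  refine ⟨?_, ?_, ?_⟩
  · intro x hx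
    refine ⟨fun o => o.elim ((F.P x).det)⁻¹ fun q => F.P x q.1 q.2, ?_, fun s => by rw [hX]; rfl⟩
    rw [F.sys_iff]
    exact ⟨inv_mul_cancel₀ (F.mem x hx).1, F.mem x hx⟩
  · intro p hp x hx z hz
    rw [F.sys_iff] at hz
    simp only [hX]
    exact F.inv p hp hx hz.2
  · intro x hx A B hAB
    simp only [hX] at hAB ⊢
    have h1 := F.irr (sbA A (F.P x)) (sbA B (F.P x)) (fun γ hγ => by
      rw [sbA_eval, sbA_eval]
      have h2 := F.orbit hx hγ
      refine hAB (fun o => o.elim ((γ * F.P x).det)⁻¹ fun q => (γ * F.P x) q.1 q.2) ?_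
      rw [F.sys_iff]
      exact ⟨inv_mul_cancel₀ h2.1, h2⟩)
    rcases h1 with h1 | h1
    · left
      intro z hz
      rw [F.sys_iff] at hz
      exact F.hit hx hz.2 A fun γ hγ => by rw [← sbA_eval]; exact h1 γ hγ
    · right
      intro z hz
      rw [F.sys_iff] at hz
      exact F.hit hx hz.2 B fun γ hγ => by rw [← sbA_eval]; exact h1 γ hγ

/-- the torsor with multiplier `2 π i` -/
def BigFam.Tor [Fintype X] (F : BigFam X m) (x : X → ℂ) : Set (Fin m × Fin m → ℂ) :=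
  {Y | (Matrix.of fun a b => Y (a, b), tpi) ∈ torsor F.E x}

theorem BigFam.full [Fintype X] (F : BigFam X m) {K : Type} [Field K] [NumberField K] (io : K →+* ℂ)
    (e : X → K) (he : (fun j => io (e j)) ∈ F.U) {δ h : ℕ} (c : (Fin m × Fin m → Fin (δ + 1)) → Fin h → K)
    (H : ∀ Y ∈ F.Tor (fun j => io (e j)),
      ∑ l, (∑ a : Fin h, tpi ^ (a : ℕ) * io (c l a)) * ∏ y, Y y ^ (l y : ℕ) = 0)
    {μ : ℂ} (Y : Matrix (Fin m) (Fin m) ℂ) (hY : (Y, μ) ∈ torsor F.E fun j => io (e j)) :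
    ∑ l : Fin m × Fin m → Fin (δ + 1), (∑ a : Fin h, μ ^ (a : ℕ) * io (c l a)) * ∏ y, Y y.1 y.2 ^ (l y : ℕ) = 0 := by
  classical
  -- substitution of the point
  let ψ : MvPolynomial (X ⊕ Option (Fin m × Fin m)) Qbar →ₐ[Qbar] MvPolynomial (Option (Fin m × Fin m)) Qbar :=
    MvPolynomial.aeval (Sum.elim (fun j => MvPolynomial.C (ioQ io (e j))) MvPolynomial.X)
  have hψ : ∀ (ν : ℂ) (Z : Fin m × Fin m → ℂ) (E : MvPolynomial (X ⊕ Option (Fin m × Fin m)) Qbar),
      MvPolynomial.aeval (pt ν Z) (ψ E) =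
        MvPolynomial.aeval (pt3 (fun j => io (e j)) ν (Matrix.of fun a b => Z (a, b))) E := by
    intro ν Z E
    refine (MvPolynomial.comp_aeval_apply _ (MvPolynomial.aeval (R := Qbar) (pt ν Z)) E).trans ?_
    congr 2
    funext o
    rcases o with j | (_ | q)
    · simp only [Sum.elim_inl, pt3]
      rw [MvPolynomial.aeval_C]
      exact ioQ_coe io (e j)
    · simp only [Sum.elim_inr, pt3, MvPolynomial.aeval_X, pt]
      rfl
    · simp only [Sum.elim_inr, pt3, MvPolynomial.aeval_X, pt]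
      rfl
  let g : MvPolynomial (Option (Fin m × Fin m)) Qbar := MvPolynomial.rename some (detP Qbar m)
  have hg : ∀ (ν : ℂ) (Z : Fin m × Fin m → ℂ), MvPolynomial.aeval (pt ν Z) g = (Matrix.of fun a b => Z (a, b)).det := by
    intro ν Z
    rw [MvPolynomial.aeval_rename]
    have h3 := detP_hom (m := m) ((MvPolynomial.aeval (R := Qbar) ((pt ν Z) ∘ some)).toRingHom)
    refine h3.trans ?_
    congr 1
    ext a b
    simp [pt]
  have htor : ∀ (ν : ℂ) (Z : Fin m × Fin m → ℂ), ν ≠ 0 → (∀ E ∈ ψ '' F.E, MvPolynomial.aeval (pt ν Z) E = 0) →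
      MvPolynomial.aeval (pt ν Z) g ≠ 0 → (Matrix.of (fun a b => Z (a, b)), ν) ∈ torsor F.E fun j => io (e j) := by
    intro ν Z hν h1 h2
    rw [hg] at h2
    refine ⟨h2, hν, fun E hE => ?_⟩
    have h3 := h1 _ (Set.mem_image_of_mem _ hE)
    rw [hψ] at h3
    exact h3
  let D : MvPolynomial (Option (Fin m × Fin m)) Qbar := ∑ l : Fin m × Fin m → Fin (δ + 1),
    (∑ a : Fin h, MvPolynomial.X none ^ (a : ℕ) * MvPolynomial.C (ioQ io (c l a))) *
      ∏ y, MvPolynomial.X (some y) ^ (l y : ℕ)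
  have hD : ∀ (ν : ℂ) (Z : Fin m × Fin m → ℂ), MvPolynomial.aeval (pt ν Z) D =
      ∑ l : Fin m × Fin m → Fin (δ + 1), (∑ a : Fin h, ν ^ (a : ℕ) * io (c l a)) * ∏ y, Z y ^ (l y : ℕ) := by
    intro ν Z
    simp only [D, map_sum, map_mul, map_prod, map_pow, MvPolynomial.aeval_X, MvPolynomial.aeval_C, pt, Option.elim]
    rfl
  have key := full_gen (ψ '' F.E) g (fun q => F.w q.1) ?_ D ?_ μ hY.2.1 (fun q => Y q.1 q.2) ?_ ?_
  · rw [hD] at key
    exact key
  · intro z ν Z hz hν h1 h2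
    have h3 := F.twist _ he _ (htor ν Z hν h1 h2) z hz
    have h4 : (Matrix.of fun a b => z ^ F.w a * Z (a, b)) =
        Matrix.diagonal (fun l => z ^ F.w l) * Matrix.of fun a b => Z (a, b) := by
      ext a b
      rw [Matrix.diagonal_mul]
      rfl
    constructor
    · rintro _ ⟨E, hE, rfl⟩
      rw [hψ]
      have h5 := h3.2.2 E hE
      rw [← h4] at h5
      exact h5
    · rw [hg]
      have h5 := h3.1
      rw [← h4] at h5
      exact h5
  · intro Z h1 h2
    rw [hD]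
    exact H Z (htor tpi Z tpi_ne h1 h2)
  · rintro _ ⟨E, hE, rfl⟩
    rw [hψ]
    exact hY.2.2 E hE
  · rw [hg]
    exact hY.1

theorem BigFam.exceptional_sub [Fintype X] (F : BigFam X m) (k : ℕ) (hk : 0 < k) (K : Type) [Field K] [NumberField K]
    (io : K →+* ℂ) (ξ : Fin k → ℂ) (T : ℝ) : F.Exceptional k K io ξ T ⊆
      ExcT k (fun (q : Fin m × Fin m) x => F.P x q.1 q.2) F.Tor (InnerM F.U k) K io ξ (k : ℝ) T ∪
      ExcT k (fun (q : Fin m × Fin m) x => F.P x q.1 q.2) F.Tor (InnerM F.U k) K io (fun a : Fin k => tpi ^ (a : ℕ))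
        (k : ℝ) T := by
  classical
  rintro e ⟨h1, h2, h3⟩
  by_contra hcon
  rw [Set.mem_union, not_or] at hcon
  obtain ⟨h4, h5⟩ := hcon
  apply h3
  intro c hc
  have hc' : ∀ l i (φ : K →+* ℂ), ‖φ (c l i : K)‖ ≤ T ^ (k : ℝ) := by
    intro l i φ
    rw [Real.rpow_natCast]
    exact hc l i φ
  have key : ∀ w : Fin k → ℂ, e ∉ ExcT k (fun (q : Fin m × Fin m) x => F.P x q.1 q.2) F.Tor (InnerM F.U k) K io w
      (k : ℝ) T → poly (fun l a => io (c l a : K)) w (F.P fun j => io (e j)) = 0 →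
      ∀ Y ∈ F.Tor (fun j => io (e j)),
        ∑ l, (∑ a, w a * io (c l a : K)) * ∏ y, Y y ^ (l y : ℕ) = 0 := by
    intro w hw hw0
    by_contra hne
    exact hw ⟨h1, h2, c, hc', hw0, hne⟩
  refine ⟨fun h6 Y hY => ?_, fun h6 => ?_⟩
  · exact key ξ h4 h6 (fun q => Y q.1 q.2) hY
  · rintro ⟨Y, μ⟩ hp
    exact F.full io e (innerM_sub _ hk h2) (fun l a => (c l a : K))
      (key (fun a => tpi ^ (a : ℕ)) h5 h6) Y hp

theorem BigFam.main [Fintype X] [DecidableEq X] [Nonempty X] (F : BigFam X m) :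
    ∃ (ω : ℝ → ℕ) (T₀ : ℝ), Tendsto ω atTop atTop ∧ Monotone ω ∧ ∀ T, T₀ ≤ T → 0 < ω T ∧
      ∀ (K : Type) [Field K] [NumberField K], Module.finrank ℚ K ≤ ω T → ∀ (io : K →+* ℂ) (ξ : Fin (ω T) → ℂ),
        Cov ⌊T ^ ((ω T : ℝ)⁻¹)⌋₊ ⌊T ^ ((ω T : ℝ)⁻¹)⌋₊
          ((fun (e : X → K) j => io (e j)) '' F.Exceptional (ω T) K io ξ T) ∧
        (F.Exceptional (ω T) K io ξ T).Finite ∧
        ((F.Exceptional (ω T) K io ξ T).ncard : ℝ) ≤
          T ^ ((ω T : ℝ)⁻¹) * ({x : K | Y120.HtLe K T x}.ncard : ℝ) ^ (Fintype.card X - 1) := by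
  classical
  refine omega_gen (fun k => Fin k → ℂ) (fun k K _ _ io ξ T => F.Exceptional k K io ξ T)
    (fun k K _ _ io ξ T s hs => hs.1) ?_
  intro k ε hε
  rcases Nat.eq_zero_or_pos k with hk | hk
  · refine ⟨0, 0, 2, le_rfl, le_rfl, ?_⟩
    intro K _ _ hK
    have h1 : 0 < Module.finrank ℚ K := Module.finrank_pos
    omega
  have hf : ∀ q : Fin m × Fin m, AnalyticOnNhd ℂ (fun x => F.P x q.1 q.2) F.U := fun q => F.an q.1 q.2
  have hinv : ∀ p : MvPolynomial (Fin m × Fin m) (MvPolynomial X ℂ),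
      (∀ x ∈ F.U, evM (fun (q : Fin m × Fin m) x => F.P x q.1 q.2) x p = 0) →
      ∀ x ∈ F.U, ∀ Y ∈ F.Tor x, evX x Y p = 0 := fun p hp x hx Y hY => F.inv p hp hx hY
  obtain ⟨D, C, T₀, hC, hT₀, H⟩ := excT_cov' F.conn F.isOpen F.nonempty hf (F.torA.reg F.conn hf) hinv (InnerM F.U k)
    (innerM_compact _ _) (innerM_sub _ hk) k (Fin k) k (k : ℝ) ε hε
  refine ⟨D, 2 * C, T₀, by positivity, hT₀, fun K _ _ hK io ξ T hT0 => ?_⟩
  have h1 := (H K hK io ξ T hT0).union (H K hK io (fun a : Fin k => tpi ^ (a : ℕ)) T hT0)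
  rw [← Set.image_union] at h1
  refine h1.mono le_rfl ?_ (Set.image_mono (F.exceptional_sub k hk K io ξ T))
  have h2 : (0 : ℝ) ≤ C * T ^ ε := by
    have : (0 : ℝ) < T := by linarith
    positivity
  apply Nat.le_floor
  push_cast
  have h3 := Nat.floor_le h2
  linarith

end Pool.Agent.Run7.h10.BM
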