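import Pool.Agent.Run7.h10.BM.A
import Pool.Agent.Y890.SM.Inst

/-!
# Families with symplectic monodromy have big connected monodromy
-/

set_option autoImplicit false
set_option linter.unusedSectionVars false

open Matrix NumberField Filter

namespace Pool.Agent.Run7.h10.BM

open Pool.Agent.Y890.MV
open Pool.Agent.Y890.SP (Qbar ioQ ioQ_coe)
open Pool.Agent.Y890.SM (SympFam sp_diff sp_path sp_mul)

variable {X : Type} [Fintype X] [DecidableEq X] {n : ℕ}

/-- the relations coming from the polarization -/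
noncomputable def symE (Q : Matrix (Fin n) (Fin n) (MvPolynomial X Qbar)) (J : Matrix (Fin n) (Fin n) ℚ) (w : ℕ)
    (a b : Fin n) : MvPolynomial (X ⊕ Option (Fin n × Fin n)) Qbar :=
  (∑ i, ∑ j, MvPolynomial.X (Sum.inr (some (a, i))) * MvPolynomial.rename Sum.inl (Q i j) *
    MvPolynomial.X (Sum.inr (some (b, j)))) -
    MvPolynomial.X (Sum.inr none) ^ w * MvPolynomial.C (algebraMap ℚ Qbar (J a b))

theorem symE_eval (Q : Matrix (Fin n) (Fin n) (MvPolynomial X Qbar)) (J : Matrix (Fin n) (Fin n) ℚ) (w : ℕ)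
    (a b : Fin n) (x : X → ℂ) (μ : ℂ) (Y : Matrix (Fin n) (Fin n) ℂ) :
    MvPolynomial.aeval (pt3 x μ Y) (symE Q J w a b) =
      (Y * Q.map (MvPolynomial.aeval x) * Y.transpose) a b - (μ ^ w • J.map (algebraMap ℚ ℂ)) a b := by
  rw [symE, map_sub]
  congr 1
  · rw [map_sum, Matrix.mul_apply]
    simp only [map_sum, map_mul, MvPolynomial.aeval_X, MvPolynomial.aeval_rename, Matrix.mul_apply, Finset.sum_mul,
      Matrix.transpose_apply, Matrix.map_apply]
    rw [Finset.sum_comm]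
    rfl
  · rw [map_mul, map_pow, MvPolynomial.aeval_X, MvPolynomial.aeval_C, Matrix.smul_apply, Matrix.map_apply, smul_eq_mul]
    congr 1

theorem symE_iff (Q : Matrix (Fin n) (Fin n) (MvPolynomial X Qbar)) (J : Matrix (Fin n) (Fin n) ℚ) (hJ : J.det ≠ 0)
    (w : ℕ) (x : X → ℂ) (μ : ℂ) (Y : Matrix (Fin n) (Fin n) ℂ) :
    (Y, μ) ∈ torsor (Set.range fun ab : Fin n × Fin n => symE Q J w ab.1 ab.2) x ↔
      μ ≠ 0 ∧ Y * Q.map (MvPolynomial.aeval x) * Y.transpose = μ ^ w • J.map (algebraMap ℚ ℂ) := by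
  constructor
  · rintro ⟨-, h2, h3⟩
    refine ⟨h2, Matrix.ext fun a b => ?_⟩
    have h4 := h3 _ ⟨(a, b), rfl⟩
    rw [symE_eval] at h4
    exact sub_eq_zero.1 h4
  · rintro ⟨h2, h3⟩
    refine ⟨?_, h2, ?_⟩
    · intro h0
      have h1 := congrArg Matrix.det h3
      have h0' : Y.det = 0 := h0
      rw [Matrix.det_mul, Matrix.det_mul, h0', zero_mul, zero_mul, Matrix.det_smul] at h1
      have h4 : (J.map (algebraMap ℚ ℂ)).det = algebraMap ℚ ℂ J.det := (RingHom.map_det (algebraMap ℚ ℂ) J).symm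
      refine mul_ne_zero (pow_ne_zero _ (pow_ne_zero _ h2)) ?_ h1.symm
      rw [h4, Ne, map_eq_zero]
      exact hJ
    · rintro _ ⟨⟨a, b⟩, rfl⟩
      show MvPolynomial.aeval (pt3 x μ Y) (symE Q J w a b) = 0
      rw [symE_eval, h3, sub_self]

/-- a product of polynomials which vanishes along a path -/
theorem path_irr (A B : MvPolynomial (Fin n × Fin n) ℂ) (G : Matrix (Fin n) (Fin n) (Polynomial ℂ))
    (h : ∀ t : ℂ, MvPolynomial.eval (fun q => (G.map (Polynomial.eval t)) q.1 q.2) A *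
      MvPolynomial.eval (fun q => (G.map (Polynomial.eval t)) q.1 q.2) B = 0) (s t : ℂ)
    (hA : MvPolynomial.eval (fun q => (G.map (Polynomial.eval s)) q.1 q.2) A ≠ 0) :
    MvPolynomial.eval (fun q => (G.map (Polynomial.eval t)) q.1 q.2) B = 0 := by
  let a : MvPolynomial (Fin n × Fin n) ℂ → Polynomial ℂ := fun A => MvPolynomial.aeval (fun q => G q.1 q.2) A
  have ha : ∀ (A : MvPolynomial (Fin n × Fin n) ℂ) (t : ℂ), (a A).eval t =
      MvPolynomial.eval (fun q => (G.map (Polynomial.eval t)) q.1 q.2) A := by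
    intro A t
    have h1 := MvPolynomial.comp_aeval_apply (fun q : Fin n × Fin n => G q.1 q.2) (Polynomial.aeval (R := ℂ) t) A
    have h2 : Polynomial.aeval t (a A) = (a A).eval t := by
      rw [Polynomial.aeval_def, Polynomial.eval₂_eq_eval_map]
      simp
    rw [← h2]
    refine h1.trans ?_
    rw [← MvPolynomial.coe_aeval_eq_eval]
    have h3 : (fun i : Fin n × Fin n => Polynomial.aeval t (G i.1 i.2)) =
        fun q => (G.map (Polynomial.eval t)) q.1 q.2 := by
      funext q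
      rw [Matrix.map_apply, Polynomial.aeval_def, Polynomial.eval₂_eq_eval_map]
      simp
    rw [h3]
    rfl
  have h1 : a A * a B = 0 := by
    refine Polynomial.funext fun t => ?_
    rw [Polynomial.eval_mul, ha, ha, h, Polynomial.eval_zero]
  rcases mul_eq_zero.1 h1 with h2 | h2
  · rw [← ha, h2, Polynomial.eval_zero] at hA
    exact absurd rfl hA
  · rw [← ha, h2, Polynomial.eval_zero]

theorem symp_diag (F : SympFam X fun _ : Unit => n) {γ : Matrix (Fin n) (Fin n) ℂ}
    (hγ : γ * F.Jx () * γ.transpose = F.Jx ()) : γ.det ≠ 0 := by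
  intro h0
  have h1 := congrArg Matrix.det hγ
  rw [Matrix.det_mul, Matrix.det_mul, h0, zero_mul, zero_mul] at h1
  exact F.Jx_det () h1.symm

/-- families with symplectic monodromy -/
noncomputable def ofSymp (F : SympFam X fun _ : Unit => n) : BigFam X n where
  U := F.U
  isOpen := F.isOpen
  conn := F.conn
  nonempty := F.nonempty
  P := F.P ()
  an := F.an ()
  E := Set.range fun ab : Fin n × Fin n => symE (F.Q ()) (F.J ()) (F.w ()) ab.1 ab.2
  mem := fun x hx => (symE_iff _ _ (F.J_det ()) _ _ _ _).2 ⟨tpi_ne, F.riemann x hx ()⟩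
  w := fun _ => F.w ()
  twist := by
    rintro x hx ⟨Y, μ⟩ hp z hz
    rw [symE_iff _ _ (F.J_det ())] at hp ⊢
    refine ⟨mul_ne_zero (pow_ne_zero _ hz) hp.1, ?_⟩
    have h1 : Matrix.diagonal (fun _ : Fin n => z ^ F.w ()) = z ^ F.w () • (1 : Matrix (Fin n) (Fin n) ℂ) := by
      rw [Matrix.smul_one_eq_diagonal]
    rw [h1, Matrix.smul_mul, Matrix.one_mul, Matrix.transpose_smul, Matrix.smul_mul, Matrix.mul_smul, Matrix.smul_mul,
      hp.2, smul_smul, smul_smul]
    congr 1
    ring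
  Γ := {γ | ∃ g ∈ F.Γ, γ = (g ()).map (algebraMap ℚ ℂ)}
  unit := by
    rintro _ ⟨g, hg, rfl⟩
    refine symp_diag F ?_
    have h7 := congrArg (fun M : Matrix (Fin n) (Fin n) ℚ => M.map (algebraMap ℚ ℂ)) (F.pres g hg ())
    simp only [Matrix.map_mul] at h7
    rw [Matrix.transpose_map] at h7
    exact h7
  mon := by
    rintro _ ⟨g, hg, rfl⟩ p hp x hx
    have hr : ∀ (x : X → ℂ) (Y : Pool.Agent.Y890.SM.Ix (fun _ : Unit => n) → ℂ),
        evX x Y (MvPolynomial.rename (fun q : Fin n × Fin n => (⟨(), q⟩ : Pool.Agent.Y890.SM.Ix fun _ : Unit => n)) p) =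
          evX x (fun q => Y ⟨(), q⟩) p := fun x Y => MvPolynomial.eval₂_rename _ _ _ _
    have h1 := F.mon g hg (MvPolynomial.rename (fun q : Fin n × Fin n =>
      (⟨(), q⟩ : Pool.Agent.Y890.SM.Ix fun _ : Unit => n)) p) (fun y hy => by rw [hr]; exact hp y hy) x hx
    rw [hr] at h1
    exact h1
  irr := by
    intro A B hAB
    by_contra hcon
    push Not at hcon
    obtain ⟨⟨γ₁, ⟨g₁, hg₁, rfl⟩, hA⟩, ⟨γ₂, ⟨g₂, hg₂, rfl⟩, hB⟩⟩ := hcon
    have hpres : ∀ g ∈ F.Γ, (g ()).map (algebraMap ℚ ℂ) * F.Jx () * ((g ()).map (algebraMap ℚ ℂ)).transpose =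
        F.Jx () := by
      intro g hg
      have h7 := congrArg (fun M : Matrix (Fin n) (Fin n) ℚ => M.map (algebraMap ℚ ℂ)) (F.pres g hg ())
      simp only [Matrix.map_mul] at h7
      rw [Matrix.transpose_map] at h7
      exact h7
    have h1 := hpres g₁ hg₁
    have h2 := hpres g₂ hg₂
    have hJ1 : ∀ M : Matrix (Fin n) (Fin n) ℂ, M * F.Jx () * M.transpose = F.Jx () →
        M * F.Jx () * M.transpose = (1 : ℂ) • F.Jx () := fun M hM => by rw [one_smul, hM]
    have h3 := sp_diff one_ne_zero (F.Jx_det ()) (hJ1 _ h2) (hJ1 _ h1)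
    obtain ⟨G, hG0, hG1, hG⟩ := sp_path (F.Jx_alt ()) (F.Jx_det ()) _ h3.1
    have hS : ∀ M : Matrix (Fin n) (Fin n) ℂ, M * F.Jx () * M.transpose = F.Jx () →
        MvPolynomial.eval (fun q => M q.1 q.2) A * MvPolynomial.eval (fun q => M q.1 q.2) B = 0 := by
      intro M hM
      have hr : ∀ (C : MvPolynomial (Fin n × Fin n) ℂ) (Y : Pool.Agent.Y890.SM.Ix (fun _ : Unit => n) → ℂ),
          MvPolynomial.eval Y (MvPolynomial.rename (fun q : Fin n × Fin n =>
            (⟨(), q⟩ : Pool.Agent.Y890.SM.Ix fun _ : Unit => n)) C) =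
            MvPolynomial.eval (fun q => Y ⟨(), q⟩) C := fun C Y => MvPolynomial.eval_rename _ _ _
      have h4 := F.dense (MvPolynomial.rename (fun q : Fin n × Fin n =>
            (⟨(), q⟩ : Pool.Agent.Y890.SM.Ix fun _ : Unit => n)) (A * B)) (fun γ hγ => by
          rw [hr, map_mul]
          exact hAB ((γ ()).map (algebraMap ℚ ℂ)) ⟨γ, hγ, rfl⟩) (fun _ => M) (fun _ => hM)
      rw [hr, map_mul] at h4
      exact h4
    set G' : Matrix (Fin n) (Fin n) (Polynomial ℂ) := G * ((g₁ ()).map (algebraMap ℚ ℂ)).map Polynomial.C with hG'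
    have hG'e : ∀ t, G'.map (Polynomial.eval t) = G.map (Polynomial.eval t) * (g₁ ()).map (algebraMap ℚ ℂ) := by
      intro t
      have h5 : ∀ M N : Matrix (Fin n) (Fin n) (Polynomial ℂ), (M * N).map (Polynomial.eval t) =
          M.map (Polynomial.eval t) * N.map (Polynomial.eval t) := fun M N =>
        Matrix.map_mul (f := Polynomial.evalRingHom t)
      rw [hG', h5]
      congr 1
      ext a b
      simp
    have h5 := path_irr A B G' (fun t => by
      rw [hG'e]
      refine hS _ ?_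
      have h6 := sp_mul (μ := 1) (Q := F.Jx ()) (hG t) (hJ1 _ h1)
      rw [one_smul] at h6
      exact h6) 0 1 (by
      rw [hG'e, hG0, one_mul]
      exact hA)
    apply hB
    rw [hG'e, hG1, h3.2] at h5
    exact h5
  big := by
    intro x hx Y hY R hR
    rw [symE_iff _ _ (F.J_det ())] at hY
    have h1 := sp_diff (pow_ne_zero (F.w ()) tpi_ne) (F.Jx_det ()) hY.2 (F.riemann x hx ())
    have hr : ∀ (C : MvPolynomial (Fin n × Fin n) ℂ) (Y : Pool.Agent.Y890.SM.Ix (fun _ : Unit => n) → ℂ),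
        MvPolynomial.eval Y (MvPolynomial.rename (fun q : Fin n × Fin n =>
          (⟨(), q⟩ : Pool.Agent.Y890.SM.Ix fun _ : Unit => n)) C) =
          MvPolynomial.eval (fun q => Y ⟨(), q⟩) C := fun C Y => MvPolynomial.eval_rename _ _ _
    have h4 := F.dense (MvPolynomial.rename (fun q : Fin n × Fin n =>
          (⟨(), q⟩ : Pool.Agent.Y890.SM.Ix fun _ : Unit => n)) R) (fun γ hγ => by
        rw [hr]
        exact hR ((γ ()).map (algebraMap ℚ ℂ)) ⟨γ, hγ, rfl⟩) (fun _ => Y * (F.P () x)⁻¹) (fun _ => h1.1)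
    rw [hr] at h4
    exact h4

end Pool.Agent.Run7.h10.BM
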