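import Pool.Agent.Run7.h10.BM.Reg
import Pool.Agent.Y890.MV.TorExc

/-!
# Sparsity of the points with exceptional relations (adapted from `Y890.MV.TorExc`)
-/

set_option autoImplicit false
set_option linter.unusedSectionVars false

open NumberField Filter

namespace Pool.Agent.Run7.h10.BM

open Pool.Agent.Y890.MV
open Pool.Agent.Y890.SP (Qbar)
open Pool.Agent.Y124 (Cov)

/-- the values of the polynomials `φ` at the zeros of the system `𝓔` -/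
def TorS {X σ τ : Type} (𝓔 : Set (MvPolynomial τ (MvPolynomial X ℂ))) (φ : σ → MvPolynomial τ (MvPolynomial X ℂ))
    (x : X → ℂ) : Set (σ → ℂ) :=
  {Y | ∃ z : τ → ℂ, (∀ E ∈ 𝓔, evX x z E = 0) ∧ Y = fun s => evX x z (φ s)}

theorem TorA.inv' {X σ τ : Type} {U : Set (X → ℂ)} {f : σ → (X → ℂ) → ℂ}
    {𝓔 : Set (MvPolynomial τ (MvPolynomial X ℂ))} {φ : σ → MvPolynomial τ (MvPolynomial X ℂ)}
    (hT : TorA U f 𝓔 φ) (p : MvPolynomial σ (MvPolynomial X ℂ)) (hp : ∀ x ∈ U, evM f x p = 0) (x : X → ℂ) (hx : x ∈ U)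
    (Y : σ → ℂ) (hY : Y ∈ TorS 𝓔 φ x) : evX x Y p = 0 := by
  obtain ⟨z, hz, rfl⟩ := hY
  exact hT.inv p hp x hx z hz

theorem excT_sub' {X σ h : Type} [Fintype X] [Fintype σ] [DecidableEq σ] [Fintype h] [DecidableEq h] (δ : ℕ)
    {U : Set (X → ℂ)} {f : σ → (X → ℂ) → ℂ} {Tor : (X → ℂ) → Set (σ → ℂ)}
    (hinv : ∀ p : MvPolynomial σ (MvPolynomial X ℂ), (∀ x ∈ U, evM f x p = 0) → ∀ x ∈ U, ∀ Y ∈ Tor x, evX x Y p = 0)
    {Lc : Set (X → ℂ)} (hLU : Lc ⊆ U) (K : Type) [Field K] [NumberField K] (io : K →+* ℂ) (ξ : h → ℂ) (A T : ℝ) :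
    ExcT δ f Tor Lc K io ξ A T ⊆
      ExcM (h := (σ → Fin (δ + 1)) × h) (r := Unit) U f Lc K io (fun _ l p => if p.1 = l then ξ p.2 else 0) A T := by
  classical
  rintro s ⟨h1, h2, c, h3, h4, h5⟩
  have hsum : ∀ (w : (σ → Fin (δ + 1)) × h → ℂ) (l : σ → Fin (δ + 1)),
      ∑ p : (σ → Fin (δ + 1)) × h, (if p.1 = l then ξ p.2 else 0) * w p = ∑ i, ξ i * w (l, i) := by
    intro w l
    rw [Fintype.sum_prod_type, Finset.sum_eq_single l]
    · simp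
    · intro b _ hb
      simp [hb]
    · simp
  refine ⟨h1, h2, fun p => c p.1 p.2, fun p φ => h3 p.1 p.2 φ, ?_, ?_⟩
  · intro _
    simp only [hsum]
    exact h4
  · rintro ⟨G, hG1, hG2⟩
    apply h5
    set P : MvPolynomial σ (MvPolynomial X ℂ) := ∑ l : σ → Fin (δ + 1),
      MvPolynomial.C (∑ i, MvPolynomial.C (ξ i) * MvPolynomial.map (algebraMap Qbar ℂ) (G (l, i))) *
        ∏ y, MvPolynomial.X y ^ (l y : ℕ) with hP
    have hev : ∀ (x : X → ℂ) (Y : σ → ℂ), evX x Y P =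
        ∑ l, (∑ i, ξ i * MvPolynomial.aeval x (G (l, i))) * ∏ y, Y y ^ (l y : ℕ) := by
      intro x Y
      have h6 : evX x Y P = MvPolynomial.eval₂Hom (MvPolynomial.eval x) Y P := rfl
      rw [h6, hP]
      simp only [map_sum, map_mul, map_prod, map_pow, MvPolynomial.eval₂Hom_C, MvPolynomial.eval₂Hom_X',
        MvPolynomial.eval_C, MvPolynomial.eval_map]
      rfl
    have h6 : ∀ x ∈ U, evM f x P = 0 := by
      intro x hx
      have h7 := hG2 x hx ()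
      simp only [hsum] at h7
      rw [evM_eq, hev]
      exact h7
    intro Y hY
    have h7 := hinv P h6 _ (hLU h2) Y hY
    rw [hev] at h7
    simp only [hG1] at h7
    exact h7

/-- **Sparsity of exceptional relations.** -/
theorem excT_cov' {X σ : Type} [Fintype X] [DecidableEq X] [Nonempty X] [Fintype σ] [DecidableEq σ]
    {U : Set (X → ℂ)} {f : σ → (X → ℂ) → ℂ} {Tor : (X → ℂ) → Set (σ → ℂ)} (hU : IsPreconnected U)
    (hUo : IsOpen U) (hne : U.Nonempty) (hf : ∀ i, AnalyticOnNhd ℂ (f i) U) (hreg : RegularM U f)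
    (hinv : ∀ p : MvPolynomial σ (MvPolynomial X ℂ), (∀ x ∈ U, evM f x p = 0) → ∀ x ∈ U, ∀ Y ∈ Tor x, evX x Y p = 0)
    (Lc : Set (X → ℂ))
    (hLc : IsCompact Lc) (hLU : Lc ⊆ U) (δ : ℕ) (h : Type) [Fintype h] [DecidableEq h] (m : ℕ) (A ε : ℝ)
    (hε : 0 < ε) : ∃ (D : ℕ) (C T₀ : ℝ), 0 ≤ C ∧ 2 ≤ T₀ ∧
      ∀ (K : Type) [Field K] [NumberField K], Module.finrank ℚ K ≤ m → ∀ (io : K →+* ℂ) (ξ : h → ℂ) (T : ℝ),
        T₀ ≤ T → Cov D ⌊C * T ^ ε⌋₊ ((fun (s : X → K) j => io (s j)) '' ExcT δ f Tor Lc K io ξ A T) := by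
  classical
  obtain ⟨D, C, T₀, hC, hT₀, H⟩ := excM_cov stmZ stmClose stmCharts hU hUo hne hf hreg Lc hLc hLU δ
    ((σ → Fin (δ + 1)) × h) Unit m A ε hε
  refine ⟨D, C, T₀, hC, hT₀, fun K _ _ hK io ξ T hT0 => ?_⟩
  exact (H K hK io (fun _ l p => if p.1 = l then ξ p.2 else 0) T hT0).mono le_rfl le_rfl
    (Set.image_mono (excT_sub' δ hinv hLU K io ξ A T))

end Pool.Agent.Run7.h10.BM
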