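import Pool.Agent.Run7.h10.BM.Full
import Pool.Agent.Run7.h10.BM.Exc

/-!
# Families with big connected monodromy: definitions
-/

set_option autoImplicit false
set_option linter.unusedSectionVars false

open Matrix NumberField

namespace Pool.Agent.Run7.h10.BM

open Pool.Agent.Y890.MV (evX InnerM)
open Pool.Agent.Y890.SP (Qbar)

/-- the point with the coordinates `x`, `μ` and the entries of `Y` -/
def pt3 {X : Type} {m : ℕ} (x : X → ℂ) (μ : ℂ) (Y : Matrix (Fin m) (Fin m) ℂ) : X ⊕ Option (Fin m × Fin m) → ℂ :=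
  Sum.elim x fun o => o.elim μ fun q => Y q.1 q.2

/-- the pairs `(Y, μ)` of an invertible matrix `Y` and a number `μ ≠ 0` with `e (x, μ, Y) = 0` for all `e` in `E` -/
def torsor {X : Type} {m : ℕ} (E : Set (MvPolynomial (X ⊕ Option (Fin m × Fin m)) Qbar)) (x : X → ℂ) :
    Set (Matrix (Fin m) (Fin m) ℂ × ℂ) :=
  {p | p.1.det ≠ 0 ∧ p.2 ≠ 0 ∧ ∀ e ∈ E, MvPolynomial.aeval (pt3 x p.2 p.1) e = 0}

/-- A family over the open set `U` of the space with coordinates indexed by `X`, with big connected monodromy.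
`P x` is the matrix of the periods, analytic on `U` (rows: a basis of the Betti realization over `ℚ`, columns: a basis of
the de Rham realization). `E` is a set of polynomials over the field of algebraic numbers (the relations coming from
algebraic cycles, or from any classes) which hold at `(x, 2 π i, P x)`; the variety `torsor E x` is stable under the
Tate twist, which multiplies the rows by `z ^ w l` and `2 π i` by `z ^ 2`. `Γ` is a set of invertible matrices (the
monodromy) such that the polynomial relations over `ℂ[x]` between the entries of `P x` on `U` are relations between the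
entries of `γ * P x`, the Zariski closure of `Γ` is irreducible, and `Y * (P x)⁻¹` is in this Zariski closure for all
`(Y, 2 π i)` in `torsor E x`. -/
structure BigFam (X : Type) [Fintype X] (m : ℕ) where
  U : Set (X → ℂ)
  isOpen : IsOpen U
  conn : IsPreconnected U
  nonempty : U.Nonempty
  P : (X → ℂ) → Matrix (Fin m) (Fin m) ℂ
  an : ∀ l j, AnalyticOnNhd ℂ (fun x => P x l j) U
  E : Set (MvPolynomial (X ⊕ Option (Fin m × Fin m)) Qbar)
  mem : ∀ x ∈ U, (P x, tpi) ∈ torsor E x
  w : Fin m → ℕ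
  twist : ∀ x ∈ U, ∀ p ∈ torsor E x, ∀ z : ℂ, z ≠ 0 → (Matrix.diagonal (fun l => z ^ w l) * p.1, z ^ 2 * p.2) ∈ torsor E x
  Γ : Set (Matrix (Fin m) (Fin m) ℂ)
  unit : ∀ γ ∈ Γ, γ.det ≠ 0
  mon : ∀ γ ∈ Γ, ∀ p : MvPolynomial (Fin m × Fin m) (MvPolynomial X ℂ),
    (∀ x ∈ U, evX x (fun q => P x q.1 q.2) p = 0) → ∀ x ∈ U, evX x (fun q => (γ * P x) q.1 q.2) p = 0
  irr : ∀ A B : MvPolynomial (Fin m × Fin m) ℂ,
    (∀ γ ∈ Γ, MvPolynomial.eval (fun q => γ q.1 q.2) A * MvPolynomial.eval (fun q => γ q.1 q.2) B = 0) →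
    (∀ γ ∈ Γ, MvPolynomial.eval (fun q => γ q.1 q.2) A = 0) ∨ ∀ γ ∈ Γ, MvPolynomial.eval (fun q => γ q.1 q.2) B = 0
  big : ∀ x ∈ U, ∀ Y, (Y, tpi) ∈ torsor E x → ∀ R : MvPolynomial (Fin m × Fin m) ℂ,
    (∀ γ ∈ Γ, MvPolynomial.eval (fun q => γ q.1 q.2) R = 0) →
    MvPolynomial.eval (fun q => (Y * (P x)⁻¹) q.1 q.2) R = 0

/-- the polynomial in the entries of the matrix `Y` with coefficients `∑ a, ξ a * c l a`, of degree at most `k` in
each entry -/
noncomputable def poly {m k : ℕ} (c : (Fin m × Fin m → Fin (k + 1)) → Fin k → ℂ) (ξ : Fin k → ℂ)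
    (Y : Matrix (Fin m) (Fin m) ℂ) : ℂ :=
  ∑ l : Fin m × Fin m → Fin (k + 1), (∑ a, ξ a * c l a) * ∏ q : Fin m × Fin m, (Y q.1 q.2) ^ (l q : ℕ)

/-- the relations over `K` of degree at most `k`, with coefficients of size at most `T ^ k`, between the periods at `x`
and the constants `ξ`, respectively the powers of `2 π i`, hold on the torsor -/
def BigFam.Generic {X : Type} [Fintype X] {m : ℕ} (F : BigFam X m) (k : ℕ) (K : Type) [Field K] [NumberField K]
    (io : K →+* ℂ) (ξ : Fin k → ℂ) (T : ℝ) (x : X → ℂ) : Prop :=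
  ∀ c : (Fin m × Fin m → Fin (k + 1)) → Fin k → 𝓞 K,
    (∀ l a (φ : K →+* ℂ), ‖φ (c l a : K)‖ ≤ T ^ k) →
    (poly (fun l a => io (c l a : K)) ξ (F.P x) = 0 →
      ∀ Y, (Y, tpi) ∈ torsor F.E x → poly (fun l a => io (c l a : K)) ξ Y = 0) ∧
    (poly (fun l a => io (c l a : K)) (fun a => tpi ^ (a : ℕ)) (F.P x) = 0 →
      ∀ p ∈ torsor F.E x, poly (fun l a => io (c l a : K)) (fun a => p.2 ^ (a : ℕ)) p.1 = 0)

/-- the points of `U` over `K`, of height at most `T`, of norm at most `k` and distance at least `1 / k` from the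
complement, which are not generic -/
def BigFam.Exceptional {X : Type} [Fintype X] {m : ℕ} (F : BigFam X m) (k : ℕ) (K : Type) [Field K] [NumberField K]
    (io : K →+* ℂ) (ξ : Fin k → ℂ) (T : ℝ) : Set (X → K) :=
  {e | (∀ j, Y120.HtLe K T (e j)) ∧ (fun j => io (e j)) ∈ InnerM F.U k ∧
    ¬ F.Generic k K io ξ T (fun j => io (e j))}

end Pool.Agent.Run7.h10.BM
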