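import Pool.Agent.Y890.SP.Fin
import Pool.Agent.H340R2.LW

/-!
# From the multiplier `2 π i` to all multipliers
-/

set_option autoImplicit false
set_option linter.unusedSectionVars false

namespace Pool.Agent.Run7.h10.BM

open Pool.Agent.Y890.SP (Qbar ioQ ioQ_coe)

/-- the number `2 π i` -/
noncomputable def tpi : ℂ := 2 * Real.pi * Complex.I

theorem tpi_ne : tpi ≠ 0 := by
  unfold tpi
  have h1 : (Real.pi : ℂ) ≠ 0 := by exact_mod_cast Real.pi_ne_zero
  exact mul_ne_zero (mul_ne_zero two_ne_zero h1) Complex.I_ne_zero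

/-- the square roots of algebraic multiples of `2 π i` are not algebraic -/
theorem root_trans (s : ℂ) (a : Qbar) (hs : s ^ 2 * algebraMap Qbar ℂ a = tpi) (p : Polynomial Qbar)
    (h : Polynomial.eval₂ (algebraMap Qbar ℂ) s p = 0) : p = 0 := by
  by_contra hp
  have h1 : IsAlgebraic Qbar s := ⟨p, hp, h⟩
  have : Algebra.IsAlgebraic ℚ Qbar := algebraicClosure.isAlgebraic ℚ ℂ
  have h2 : IsAlgebraic ℚ s := IsAlgebraic.restrictScalars ℚ h1
  have ha : IsAlgebraic ℚ (algebraMap Qbar ℂ a) := (Algebra.IsAlgebraic.isAlgebraic (R := ℚ) a).algebraMap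
  have h3 : IsAlgebraic ℚ ((s ^ 2 * algebraMap Qbar ℂ a) ^ 2) := ((h2.pow 2).mul ha).pow 2
  have h4 : (s ^ 2 * algebraMap Qbar ℂ a) ^ 2 = algebraMap ℚ ℂ (-4) * (Real.pi : ℂ) ^ 2 := by
    rw [hs]
    unfold tpi
    rw [mul_pow, mul_pow, Complex.I_sq]
    norm_num
  have h5 : (Real.pi : ℂ) ^ 2 = algebraMap ℚ ℂ (-4)⁻¹ * (s ^ 2 * algebraMap Qbar ℂ a) ^ 2 := by
    rw [h4, ← mul_assoc, ← map_mul]
    norm_num
  have h6 : IsAlgebraic ℚ ((Real.pi : ℂ) ^ 2) := by
    rw [h5]
    exact (isAlgebraic_algebraMap _).mul h3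
  exact Pool.Agent.H340R2.LW.transcendental_pi_complex (h6.of_pow two_pos)

/-- a point with a multiplier -/
def pt {τ R : Type} (μ : R) (Y : τ → R) : Option τ → R := fun o => o.elim μ Y

theorem aeval_coe {τ : Type} (y : τ → Qbar) (D : MvPolynomial τ Qbar) :
    MvPolynomial.aeval (fun o => algebraMap Qbar ℂ (y o)) D = algebraMap Qbar ℂ (MvPolynomial.aeval y D) :=
  (MvPolynomial.comp_aeval_apply y (Algebra.ofId Qbar ℂ) D).symm

theorem full_gen {τ : Type} [Finite τ] (𝓔 : Set (MvPolynomial (Option τ) Qbar)) (g : MvPolynomial (Option τ) Qbar)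
    (w : τ → ℕ)
    (hom : ∀ (z μ : ℂ) (Y : τ → ℂ), z ≠ 0 → μ ≠ 0 → (∀ E ∈ 𝓔, MvPolynomial.aeval (pt μ Y) E = 0) →
      MvPolynomial.aeval (pt μ Y) g ≠ 0 →
      (∀ E ∈ 𝓔, MvPolynomial.aeval (pt (z ^ 2 * μ) fun t => z ^ w t * Y t) E = 0) ∧
        MvPolynomial.aeval (pt (z ^ 2 * μ) fun t => z ^ w t * Y t) g ≠ 0)
    (D : MvPolynomial (Option τ) Qbar)
    (h : ∀ Y : τ → ℂ, (∀ E ∈ 𝓔, MvPolynomial.aeval (pt tpi Y) E = 0) → MvPolynomial.aeval (pt tpi Y) g ≠ 0 →
      MvPolynomial.aeval (pt tpi Y) D = 0)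
    (μ : ℂ) (hμ : μ ≠ 0) (Y : τ → ℂ) (hY : ∀ E ∈ 𝓔, MvPolynomial.aeval (pt μ Y) E = 0)
    (hg : MvPolynomial.aeval (pt μ Y) g ≠ 0) : MvPolynomial.aeval (pt μ Y) D = 0 := by
  classical
  have hclosed : IsAlgClosed Qbar := (algebraicClosure.isAlgClosure ℚ ℂ).isAlgClosed
  set D' : MvPolynomial (Option τ) Qbar := D * MvPolynomial.X none * g with hD'
  have h1 : D' ∈ MvPolynomial.vanishingIdeal Qbar (MvPolynomial.zeroLocus Qbar (Ideal.span 𝓔)) := by
    intro y hy
    have hy' : ∀ E ∈ 𝓔, MvPolynomial.aeval y E = 0 := fun E hE => hy E (Ideal.subset_span hE)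
    rw [hD', map_mul, map_mul, MvPolynomial.aeval_X]
    by_cases h0 : y none = 0
    · rw [h0, mul_zero, zero_mul]
    by_cases hg0 : MvPolynomial.aeval y g = 0
    · rw [hg0, mul_zero]
    have hyc : (fun o => algebraMap Qbar ℂ (y o)) = pt (algebraMap Qbar ℂ (y none))
        (fun t => algebraMap Qbar ℂ (y (some t))) := by
      funext o
      cases o <;> rfl
    have hinj : Function.Injective (algebraMap Qbar ℂ) := (algebraMap Qbar ℂ).injective
    have hn0 : algebraMap Qbar ℂ (y none) ≠ 0 := by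
      rw [Ne, map_eq_zero]
      exact h0
    obtain ⟨s, hs⟩ := IsAlgClosed.exists_pow_nat_eq (tpi / algebraMap Qbar ℂ (y none)) (n := 2) two_pos
    have hs' : s ^ 2 * algebraMap Qbar ℂ (y none) = tpi := by
      rw [hs, div_mul_cancel₀ _ hn0]
    have hs0 : s ≠ 0 := by
      rintro rfl
      rw [zero_pow two_ne_zero, zero_mul] at hs'
      exact tpi_ne hs'.symm
    have h2 := hom s (algebraMap Qbar ℂ (y none)) (fun t => algebraMap Qbar ℂ (y (some t))) hs0 hn0 (fun E hE => by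
      rw [← hyc, aeval_coe, hy' E hE, map_zero]) (by
      rw [← hyc, aeval_coe, Ne, map_eq_zero]
      exact hg0)
    rw [hs'] at h2
    have h3 := h _ h2.1 h2.2
    let P : Polynomial Qbar := MvPolynomial.aeval (fun o : Option τ => o.elim (Polynomial.X ^ 2 * Polynomial.C (y none))
      (fun t => Polynomial.X ^ w t * Polynomial.C (y (some t)))) D
    have hPe : ∀ z : ℂ, Polynomial.eval₂ (algebraMap Qbar ℂ) z P =
        MvPolynomial.aeval (pt (z ^ 2 * algebraMap Qbar ℂ (y none)) fun t => z ^ w t * algebraMap Qbar ℂ (y (some t)))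
          D := by
      intro z
      have h4 : Polynomial.eval₂ (algebraMap Qbar ℂ) z P = Polynomial.aeval z P := rfl
      rw [h4]
      refine (MvPolynomial.comp_aeval_apply _ (Polynomial.aeval (R := Qbar) z) D).trans ?_
      congr 2
      funext o
      cases o with
      | none =>
        simp [pt]
        exact mul_comm _ _
      | some t =>
        simp [pt]
        exact mul_comm _ _
    have hP0 : P = 0 := root_trans s (y none) hs' P (by rw [hPe, hs']; exact h3)
    have h5 := hPe 1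
    rw [hP0, Polynomial.eval₂_zero] at h5
    simp only [one_pow, one_mul] at h5
    rw [← hyc, aeval_coe] at h5
    have h6 : MvPolynomial.aeval y D = 0 := by
      apply hinj
      rw [map_zero]
      exact h5.symm
    rw [h6, zero_mul, zero_mul]
  rw [MvPolynomial.vanishingIdeal_zeroLocus_eq_radical] at h1
  obtain ⟨N, hN⟩ := h1
  have h2 : Ideal.span 𝓔 ≤ RingHom.ker (MvPolynomial.aeval (R := Qbar) (pt μ Y)) := by
    rw [Ideal.span_le]
    intro E hE
    exact hY E hE
  have h3 : MvPolynomial.aeval (pt μ Y) (D' ^ N) = 0 := h2 hN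
  rw [map_pow] at h3
  have h4 : MvPolynomial.aeval (pt μ Y) D' = 0 := by
    by_contra hne
    exact pow_ne_zero N hne h3
  rw [hD', map_mul, map_mul, MvPolynomial.aeval_X] at h4
  have h5 : pt μ Y none = μ := rfl
  rw [h5] at h4
  rcases mul_eq_zero.1 h4 with h6 | h6
  · exact (mul_eq_zero.1 h6).resolve_right hμ
  · exact absurd h6 hg

end Pool.Agent.Run7.h10.BM
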