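import Pool.Agent.Run7.h10.BM.Spec

/-!
# The Nullstellensatz over `ℂ(x)` and descent
-/

set_option autoImplicit false

namespace Pool.Agent.Run7.h10.BM

section null

attribute [local instance] MvPolynomial.algebraMvPolynomial

variable {X τ : Type} [Finite τ] {K : Type} [Field K] [IsAlgClosed K] [Algebra (MvPolynomial X ℂ) K]
  [Algebra (FractionRing (MvPolynomial X ℂ)) K] [IsScalarTower (MvPolynomial X ℂ) (FractionRing (MvPolynomial X ℂ)) K]

/-- a polynomial which vanishes on the zeros of `𝓔` over the algebraic closure of `ℂ(x)` vanishes on the zeros of the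
specializations outside a hypersurface -/
theorem null (𝓔 : Set (MvPolynomial τ (MvPolynomial X ℂ))) (D : MvPolynomial τ (MvPolynomial X ℂ))
    (h : ∀ y : τ → K, (∀ E ∈ 𝓔, MvPolynomial.aeval y E = 0) → MvPolynomial.aeval y D = 0) :
    ∃ b : MvPolynomial X ℂ, b ≠ 0 ∧ ∀ (x0 : X → ℂ) (z0 : τ → ℂ), MvPolynomial.eval x0 b ≠ 0 →
      (∀ E ∈ 𝓔, MvPolynomial.eval₂ (MvPolynomial.eval x0) z0 E = 0) →
      MvPolynomial.eval₂ (MvPolynomial.eval x0) z0 D = 0 := by
  classical
  let φ : MvPolynomial τ (MvPolynomial X ℂ) →+* MvPolynomial τ (FractionRing (MvPolynomial X ℂ)) :=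
    MvPolynomial.map (algebraMap (MvPolynomial X ℂ) (FractionRing (MvPolynomial X ℂ)))
  have hφ : ∀ (y : τ → K) (p : MvPolynomial τ (MvPolynomial X ℂ)),
      MvPolynomial.aeval y (φ p) = MvPolynomial.aeval y p := by
    intro y p
    exact MvPolynomial.aeval_map_algebraMap (FractionRing (MvPolynomial X ℂ)) y p
  have h1 : φ D ∈ MvPolynomial.vanishingIdeal (FractionRing (MvPolynomial X ℂ))
      (MvPolynomial.zeroLocus K ((Ideal.span 𝓔).map φ)) := by
    intro y hy
    rw [hφ]
    refine h y fun E hE => ?_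
    rw [← hφ]
    exact hy _ (Ideal.mem_map_of_mem φ (Ideal.subset_span hE))
  rw [MvPolynomial.vanishingIdeal_zeroLocus_eq_radical] at h1
  obtain ⟨N, hN⟩ := h1
  rw [← map_pow] at hN
  obtain ⟨⟨⟨a, ha⟩, ⟨s, hs⟩⟩, has⟩ := (IsLocalization.mem_map_algebraMap_iff
    ((nonZeroDivisors (MvPolynomial X ℂ)).map (MvPolynomial.C (σ := τ)))
    (MvPolynomial τ (FractionRing (MvPolynomial X ℂ)))).1 hN
  obtain ⟨b, hb, rfl⟩ := hs
  have hinj : Function.Injective φ :=
    MvPolynomial.map_injective _ (IsFractionRing.injective (MvPolynomial X ℂ) (FractionRing (MvPolynomial X ℂ)))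
  have hD : D ^ N * MvPolynomial.C b = a := by
    apply hinj
    rw [map_mul]
    exact has
  refine ⟨b, nonZeroDivisors.ne_zero hb, fun x0 z0 hx0 hz0 => ?_⟩
  have h2 : Ideal.span 𝓔 ≤ RingHom.ker (MvPolynomial.eval₂Hom (MvPolynomial.eval x0) z0) := by
    rw [Ideal.span_le]
    intro E hE
    exact hz0 E hE
  have h3 : MvPolynomial.eval₂Hom (MvPolynomial.eval x0) z0 a = 0 := h2 ha
  rw [← hD, map_mul, map_pow, MvPolynomial.eval₂Hom_C] at h3
  rcases mul_eq_zero.1 h3 with h4 | h4
  · by_contra hne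
    exact pow_ne_zero N hne h4
  · exact absurd h4 hx0

end null

/-- elements of the algebraic closure of `ℂ(x)` fixed by all automorphisms are quotients -/
theorem galois {X : Type} (r : AlgebraicClosure (FractionRing (MvPolynomial X ℂ)))
    (hr : ∀ s : AlgebraicClosure (FractionRing (MvPolynomial X ℂ)) ≃ₐ[FractionRing (MvPolynomial X ℂ)]
      AlgebraicClosure (FractionRing (MvPolynomial X ℂ)), s r = r) :
    ∃ u v : MvPolynomial X ℂ, v ≠ 0 ∧ algebraMap (MvPolynomial X ℂ) _ v * r = algebraMap (MvPolynomial X ℂ) _ u := by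
  have : CharZero (FractionRing (MvPolynomial X ℂ)) :=
    charZero_of_injective_algebraMap (algebraMap ℂ (FractionRing (MvPolynomial X ℂ))).injective
  have hg : IsGalois (FractionRing (MvPolynomial X ℂ)) (AlgebraicClosure (FractionRing (MvPolynomial X ℂ))) :=
    inferInstance
  obtain ⟨q, rfl⟩ := (InfiniteGalois.mem_range_algebraMap_iff_fixed r).2 hr
  obtain ⟨u, v, hv, rfl⟩ := IsFractionRing.div_surjective (A := MvPolynomial X ℂ) q
  refine ⟨u, v, nonZeroDivisors.ne_zero hv, ?_⟩
  have h1 : algebraMap (MvPolynomial X ℂ) (FractionRing (MvPolynomial X ℂ)) v ≠ 0 :=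
    IsFractionRing.to_map_ne_zero_of_mem_nonZeroDivisors hv
  rw [IsScalarTower.algebraMap_apply (MvPolynomial X ℂ) (FractionRing (MvPolynomial X ℂ))
    (AlgebraicClosure (FractionRing (MvPolynomial X ℂ))), ← map_mul, mul_div_cancel₀ _ h1]
  exact (IsScalarTower.algebraMap_apply (MvPolynomial X ℂ) (FractionRing (MvPolynomial X ℂ))
    (AlgebraicClosure (FractionRing (MvPolynomial X ℂ))) u).symm

end Pool.Agent.Run7.h10.BM
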