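import Pool.Agent.Run7.h10.BM.Null
import Pool.Agent.Y890.MV.Tor

/-!
# `ℂ(x)` is algebraically closed in the field generated by functions whose relations define a geometrically irreducible
# variety
-/

set_option autoImplicit false
set_option linter.unusedSectionVars false

open Polynomial Filter Topology

namespace Pool.Agent.Run7.h10.BM

open Pool.Agent.Y890.MV

/-- an algebraic relation between two elements of a domain over `ℂ` with constant coefficients -/
theorem const_ratio' {D : Type} [CommRing D] [IsDomain D] [Algebra ℂ D] {a b : D} (hb : b ≠ 0) (N : ℕ) (ρ : ℕ → ℂ)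
    (hN : ρ N ≠ 0)
    (h : ∑ k ∈ Finset.range (N + 1), algebraMap ℂ D (ρ k) * a ^ k * b ^ (N - k) = 0) :
    ∃ r : ℂ, a = algebraMap ℂ D r * b := by
  classical
  let L := FractionRing D
  let φ : D →+* L := algebraMap D L
  have hφ : Function.Injective φ := IsFractionRing.injective D L
  have hb' : φ b ≠ 0 := by
    rw [Ne, map_eq_zero_iff φ hφ]
    exact hb
  set z : L := φ a / φ b with hz
  let R : ℂ[X] := ∑ k ∈ Finset.range (N + 1), C (ρ k) * X ^ k
  have hR0 : R ≠ 0 := by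
    intro h0
    apply hN
    have h1 : R.coeff N = ρ N := by
      simp only [R, finsetSum_coeff, coeff_C_mul, coeff_X_pow]
      rw [Finset.sum_eq_single N]
      · simp
      · intro k _ hk
        rw [if_neg (Ne.symm hk), mul_zero]
      · intro h
        exact absurd (Finset.mem_range.2 (Nat.lt_succ_self N)) h
    rw [← h1, h0, coeff_zero]
  have hRz : aeval z R = 0 := by
    have h0 : aeval z R = ∑ k ∈ Finset.range (N + 1), algebraMap ℂ L (ρ k) * z ^ k := by
      simp only [R, map_sum, map_mul, map_pow, aeval_C, aeval_X]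
    have h1 : φ b ^ N * aeval z R = φ (∑ k ∈ Finset.range (N + 1), algebraMap ℂ D (ρ k) * a ^ k * b ^ (N - k)) := by
      rw [h0, map_sum, Finset.mul_sum]
      refine Finset.sum_congr rfl fun k hk => ?_
      rw [map_mul, map_mul, map_pow, map_pow]
      have hk' : k ≤ N := Nat.lt_succ_iff.1 (Finset.mem_range.1 hk)
      have h2 : φ b ^ N = φ b ^ (N - k) * φ b ^ k := by rw [← pow_add, Nat.sub_add_cancel hk']
      have h3 : algebraMap ℂ L (ρ k) = φ (algebraMap ℂ D (ρ k)) := IsScalarTower.algebraMap_apply ℂ D L (ρ k)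
      have hbk : φ b ^ k ≠ 0 := pow_ne_zero _ hb'
      rw [h2, h3, hz, div_pow]
      calc φ b ^ (N - k) * φ b ^ k * (φ (algebraMap ℂ D (ρ k)) * (φ a ^ k / φ b ^ k))
          = φ (algebraMap ℂ D (ρ k)) * (φ a ^ k / φ b ^ k * φ b ^ k) * φ b ^ (N - k) := by ring
        _ = _ := by rw [div_mul_cancel₀ _ hbk]
    rw [h, map_zero] at h1
    exact (mul_eq_zero.1 h1).resolve_left (pow_ne_zero _ hb')
  have hint : IsIntegral ℂ z := isAlgebraic_iff_isIntegral.1 ⟨R, hR0, hRz⟩
  have hdeg : (minpoly ℂ z).degree = 1 :=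
    IsAlgClosed.degree_eq_one_of_irreducible ℂ (minpoly.irreducible hint)
  obtain ⟨r, hr⟩ := minpoly.mem_range_of_degree_eq_one ℂ z hdeg
  refine ⟨r, hφ ?_⟩
  have h3 : algebraMap ℂ L r = φ (algebraMap ℂ D r) := IsScalarTower.algebraMap_apply ℂ D L r
  rw [map_mul, ← h3, hr, hz, div_mul_cancel₀ _ hb']

/-- The relations between the functions `f` on `U` hold at the values of the polynomials `φ` at the zeros of the system
`𝓔`, the values of `f` are among these, and the closure of these values is irreducible. -/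
structure TorA {X σ τ : Type} (U : Set (X → ℂ)) (f : σ → (X → ℂ) → ℂ) (𝓔 : Set (MvPolynomial τ (MvPolynomial X ℂ)))
    (φ : σ → MvPolynomial τ (MvPolynomial X ℂ)) : Prop where
  self : ∀ x ∈ U, ∃ z : τ → ℂ, (∀ E ∈ 𝓔, evX x z E = 0) ∧ ∀ s, evX x z (φ s) = f s x
  inv : ∀ p : MvPolynomial σ (MvPolynomial X ℂ), (∀ x ∈ U, evM f x p = 0) → ∀ x ∈ U, ∀ z : τ → ℂ,
    (∀ E ∈ 𝓔, evX x z E = 0) → evX x (fun s => evX x z (φ s)) p = 0
  irr : ∀ x ∈ U, ∀ A B : MvPolynomial σ ℂ,
    (∀ z : τ → ℂ, (∀ E ∈ 𝓔, evX x z E = 0) → MvPolynomial.eval (fun s => evX x z (φ s)) A *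
      MvPolynomial.eval (fun s => evX x z (φ s)) B = 0) →
    (∀ z : τ → ℂ, (∀ E ∈ 𝓔, evX x z E = 0) → MvPolynomial.eval (fun s => evX x z (φ s)) A = 0) ∨
    (∀ z : τ → ℂ, (∀ E ∈ 𝓔, evX x z E = 0) → MvPolynomial.eval (fun s => evX x z (φ s)) B = 0)

variable {X σ τ : Type}

theorem evX_bind (φ : σ → MvPolynomial τ (MvPolynomial X ℂ)) (x : X → ℂ) (z : τ → ℂ)
    (p : MvPolynomial σ (MvPolynomial X ℂ)) :
    MvPolynomial.eval₂ (MvPolynomial.eval x) z (MvPolynomial.bind₁ φ p) = evX x (fun s => evX x z (φ s)) p :=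
  MvPolynomial.eval₂Hom_bind₁ (MvPolynomial.eval x) z φ p

theorem evX_eval (x : X → ℂ) (Y : σ → ℂ) (p : MvPolynomial σ (MvPolynomial X ℂ)) :
    MvPolynomial.eval Y (MvPolynomial.map (MvPolynomial.eval x) p) = evX x Y p := MvPolynomial.eval_map _ _ _

theorem TorA.reg [Fintype X] [DecidableEq X] [Fintype σ] [Finite τ] {U : Set (X → ℂ)} {f : σ → (X → ℂ) → ℂ}
    {𝓔 : Set (MvPolynomial τ (MvPolynomial X ℂ))} {φ : σ → MvPolynomial τ (MvPolynomial X ℂ)}
    (hU : IsPreconnected U) (hf : ∀ i, AnalyticOnNhd ℂ (f i) U) (hT : TorA U f 𝓔 φ) : RegularM U f := by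
  classical
  intro V g P Q R hVo hVne hVU hg hR hQ hPQ hRg
  set N := R.natDegree with hN
  set W : MvPolynomial σ (MvPolynomial X ℂ) :=
    ∑ k ∈ Finset.range (N + 1), MvPolynomial.C (R.coeff k) * P ^ k * Q ^ (N - k) with hW
  have hWev : ∀ (x : X → ℂ) (Y : σ → ℂ), evX x Y W =
      ∑ k ∈ Finset.range (N + 1), MvPolynomial.eval x (R.coeff k) * evX x Y P ^ k * evX x Y Q ^ (N - k) := by
    intro x Y
    have h1 : ∀ p, evX x Y p = MvPolynomial.eval₂Hom (MvPolynomial.eval x) Y p := fun p => rfl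
    simp only [h1, hW, map_sum, map_mul, map_pow, MvPolynomial.eval₂Hom_C]
  have hWV : ∀ x ∈ V, evM f x W = 0 := by
    intro x hx
    rw [evM_eq, hWev]
    have h1 : evX x (fun i => f i x) P = evX x (fun i => f i x) Q * g x := (hPQ x hx).symm
    have h2 := hRg x hx
    rw [Polynomial.eval_map, Polynomial.eval₂_eq_sum_range] at h2
    calc ∑ k ∈ Finset.range (N + 1), MvPolynomial.eval x (R.coeff k) * evX x (fun i => f i x) P ^ k *
          evX x (fun i => f i x) Q ^ (N - k)
        = evX x (fun i => f i x) Q ^ N * ∑ k ∈ Finset.range (N + 1), MvPolynomial.eval x (R.coeff k) * g x ^ k := by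
          rw [Finset.mul_sum]
          refine Finset.sum_congr rfl fun k hk => ?_
          have hk' : k ≤ N := Nat.lt_succ_iff.1 (Finset.mem_range.1 hk)
          have h3 : evX x (fun i => f i x) Q ^ N =
              evX x (fun i => f i x) Q ^ (N - k) * evX x (fun i => f i x) Q ^ k := by
            rw [← pow_add, Nat.sub_add_cancel hk']
          rw [h1, h3, mul_pow]
          ring
      _ = 0 := by rw [h2, mul_zero]
  have hWU : ∀ x ∈ U, evM f x W = 0 := by
    obtain ⟨x0, hx0⟩ := hVne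
    have h1 : (fun x => evM f x W) =ᶠ[𝓝 x0] 0 := by
      filter_upwards [hVo.mem_nhds hx0] with x hx
      exact hWV x hx
    exact (evM_an hf W).eqOn_zero_of_preconnected_of_eventuallyEq_zero hU (hVU hx0) h1
  have hWT := hT.inv W hWU
  -- the quotient is constant
  have hconst : ∀ x ∈ V, MvPolynomial.eval x R.leadingCoeff ≠ 0 → ∀ z : τ → ℂ, (∀ E ∈ 𝓔, evX x z E = 0) →
      evX x (fun s => evX x z (φ s)) P = g x * evX x (fun s => evX x z (φ s)) Q := by
    intro x hx hr
    let I : Ideal (MvPolynomial σ ℂ) :=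
      { carrier := {A | ∀ z : τ → ℂ, (∀ E ∈ 𝓔, evX x z E = 0) → MvPolynomial.eval (fun s => evX x z (φ s)) A = 0}
        add_mem' := fun {A B} hA hB z hz => by rw [map_add, hA z hz, hB z hz, add_zero]
        zero_mem' := fun z _ => map_zero _
        smul_mem' := fun A B hB z hz => by rw [smul_eq_mul, map_mul, hB z hz, mul_zero] }
    obtain ⟨z₀, hz₀, hz₀f⟩ := hT.self x (hVU hx)
    have hz₀f' : (fun s => evX x z₀ (φ s)) = fun s => f s x := funext hz₀f
    have hI : I.IsPrime := by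
      refine ⟨?_, ?_⟩
      · rw [Ideal.ne_top_iff_one]
        intro h
        have h1 := h z₀ hz₀
        rw [map_one] at h1
        exact one_ne_zero h1
      · intro A B hAB
        exact hT.irr x (hVU hx) A B fun z hz => by
          rw [← map_mul]
          exact hAB z hz
    have hdom : IsDomain (MvPolynomial σ ℂ ⧸ I) := Ideal.Quotient.isDomain I
    set a := Ideal.Quotient.mk I (MvPolynomial.map (MvPolynomial.eval x) P) with ha
    set b := Ideal.Quotient.mk I (MvPolynomial.map (MvPolynomial.eval x) Q) with hb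
    have hb0 : b ≠ 0 := by
      rw [hb, Ne, Ideal.Quotient.eq_zero_iff_mem]
      intro h
      have h1 := h z₀ hz₀
      rw [evX_eval, hz₀f'] at h1
      exact hQ x hx h1
    have halg : ∀ c : ℂ, algebraMap ℂ (MvPolynomial σ ℂ ⧸ I) c = Ideal.Quotient.mk I (MvPolynomial.C c) := fun c => rfl
    obtain ⟨r, hr'⟩ := const_ratio' (a := a) hb0 N (fun k => MvPolynomial.eval x (R.coeff k)) hr (by
      simp only [halg, ha, hb, ← map_mul, ← map_pow, ← map_sum]
      rw [Ideal.Quotient.eq_zero_iff_mem]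
      intro z hz
      rw [← hWT x (hVU hx) z hz, hWev]
      simp only [map_sum, map_mul, map_pow, MvPolynomial.eval_C, evX_eval])
    have h5 : ∀ z : τ → ℂ, (∀ E ∈ 𝓔, evX x z E = 0) →
        evX x (fun s => evX x z (φ s)) P = r * evX x (fun s => evX x z (φ s)) Q := by
      intro z hz
      rw [halg, ha, hb, ← map_mul, Ideal.Quotient.eq] at hr'
      have h6 := hr' z hz
      rw [map_sub, map_mul, MvPolynomial.eval_C, evX_eval, evX_eval, sub_eq_zero] at h6
      exact h6
    have h7 : r = g x := by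
      have h8 := h5 z₀ hz₀
      rw [hz₀f'] at h8
      have h6 := hPQ x hx
      rw [evM_eq, evM_eq, h8, mul_comm] at h6
      exact (mul_right_cancel₀ (hQ x hx) h6).symm
    rw [← h7]
    exact h5
  have hpt : ∀ b : MvPolynomial X ℂ, b ≠ 0 → ∃ x0 ∈ V, MvPolynomial.eval x0 b ≠ 0 := by
    intro b hb
    by_contra hcon
    push Not at hcon
    exact hb (poly_zero hVo hVne _ hcon)
  set Pt := MvPolynomial.bind₁ φ P with hPt
  set Qt := MvPolynomial.bind₁ φ Q with hQt
  let K := AlgebraicClosure (FractionRing (MvPolynomial X ℂ))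
  have hfs : FaithfulSMul (MvPolynomial X ℂ) K := by
    rw [faithfulSMul_iff_algebraMap_injective]
    have h1 : algebraMap (MvPolynomial X ℂ) K = (algebraMap (FractionRing (MvPolynomial X ℂ)) K).comp
      (algebraMap (MvPolynomial X ℂ) (FractionRing (MvPolynomial X ℂ))) := IsScalarTower.algebraMap_eq _ _ _
    rw [h1]
    exact (algebraMap (FractionRing (MvPolynomial X ℂ)) K).injective.comp
      (IsFractionRing.injective (MvPolynomial X ℂ) (FractionRing (MvPolynomial X ℂ)))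
  have hKalg : Algebra.IsAlgebraic (MvPolynomial X ℂ) K :=
    (IsFractionRing.comap_isAlgebraic_iff (A := MvPolynomial X ℂ) (K := FractionRing (MvPolynomial X ℂ)) (C := K)).2
      inferInstance
  -- over the algebraic closure of `ℂ(x)` the quotient is constant as well
  have key : ∀ y y' : τ → K, (∀ E ∈ 𝓔, MvPolynomial.aeval y E = 0) → (∀ E ∈ 𝓔, MvPolynomial.aeval y' E = 0) →
      MvPolynomial.aeval y Pt * MvPolynomial.aeval y' Qt = MvPolynomial.aeval y' Pt * MvPolynomial.aeval y Qt := by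
    intro y y' hy hy'
    by_contra hne
    have hne' := sub_ne_zero.2 hne
    set w := (MvPolynomial.aeval y Pt * MvPolynomial.aeval y' Qt -
      MvPolynomial.aeval y' Pt * MvPolynomial.aeval y Qt)⁻¹ with hw
    let z : (τ ⊕ τ) ⊕ Unit → K := Sum.elim (Sum.elim y y') fun _ => w
    obtain ⟨b, hb, hspec⟩ := spec (X := X) (K := K) z
    obtain ⟨x0, hx0, hx0'⟩ := hpt (b * R.leadingCoeff) (mul_ne_zero hb (Polynomial.leadingCoeff_ne_zero.2 hR))
    rw [map_mul, mul_ne_zero_iff] at hx0'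
    obtain ⟨z0, hz0⟩ := hspec x0 hx0'.1
    let i1 : τ → (τ ⊕ τ) ⊕ Unit := fun t => Sum.inl (Sum.inl t)
    let i2 : τ → (τ ⊕ τ) ⊕ Unit := fun t => Sum.inl (Sum.inr t)
    have e1 : ∀ p : MvPolynomial τ (MvPolynomial X ℂ), MvPolynomial.aeval z (MvPolynomial.rename i1 p) =
        MvPolynomial.aeval y p := fun p => MvPolynomial.aeval_rename _ _ _
    have e2 : ∀ p : MvPolynomial τ (MvPolynomial X ℂ), MvPolynomial.aeval z (MvPolynomial.rename i2 p) =
        MvPolynomial.aeval y' p := fun p => MvPolynomial.aeval_rename _ _ _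
    have e3 : ∀ p : MvPolynomial τ (MvPolynomial X ℂ),
        MvPolynomial.eval₂Hom (MvPolynomial.eval x0) z0 (MvPolynomial.rename i1 p) = evX x0 (z0 ∘ i1) p := fun p =>
      MvPolynomial.eval₂_rename _ _ _ _
    have e4 : ∀ p : MvPolynomial τ (MvPolynomial X ℂ),
        MvPolynomial.eval₂Hom (MvPolynomial.eval x0) z0 (MvPolynomial.rename i2 p) = evX x0 (z0 ∘ i2) p := fun p =>
      MvPolynomial.eval₂_rename _ _ _ _
    have h1 : ∀ E ∈ 𝓔, evX x0 (z0 ∘ i1) E = 0 := by
      intro E hE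
      rw [← e3]
      exact hz0 _ (by rw [e1]; exact hy E hE)
    have h2 : ∀ E ∈ 𝓔, evX x0 (z0 ∘ i2) E = 0 := by
      intro E hE
      rw [← e4]
      exact hz0 _ (by rw [e2]; exact hy' E hE)
    have h3 : MvPolynomial.eval₂Hom (MvPolynomial.eval x0) z0 ((MvPolynomial.rename i1 Pt * MvPolynomial.rename i2 Qt -
        MvPolynomial.rename i2 Pt * MvPolynomial.rename i1 Qt) * MvPolynomial.X (Sum.inr ()) - 1) = 0 := by
      refine hz0 _ ?_
      rw [map_sub, map_mul, map_sub, map_mul, map_mul, e1, e1, e2, e2, MvPolynomial.aeval_X, map_one]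
      have h4 : z (Sum.inr ()) = w := rfl
      rw [h4, hw, mul_inv_cancel₀ hne', sub_self]
    rw [map_sub, map_mul, map_sub, map_mul, map_mul, e3, e3, e4, e4, map_one] at h3
    have h4 := hconst x0 hx0 hx0'.2 _ h1
    have h5 := hconst x0 hx0 hx0'.2 _ h2
    rw [← evX_bind] at h4 h5
    rw [← evX_bind] at h4 h5
    have h6 : evX x0 (z0 ∘ i1) Pt = g x0 * evX x0 (z0 ∘ i1) Qt := h4
    have h7 : evX x0 (z0 ∘ i2) Pt = g x0 * evX x0 (z0 ∘ i2) Qt := h5
    rw [h6, h7] at h3
    have h8 : g x0 * evX x0 (z0 ∘ i1) Qt * evX x0 (z0 ∘ i2) Qt -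
      g x0 * evX x0 (z0 ∘ i2) Qt * evX x0 (z0 ∘ i1) Qt = 0 := by ring
    rw [h8, zero_mul, zero_sub, neg_eq_zero] at h3
    exact one_ne_zero h3
  -- a point
  obtain ⟨y, hy, hyQ⟩ : ∃ y : τ → K, (∀ E ∈ 𝓔, MvPolynomial.aeval y E = 0) ∧ MvPolynomial.aeval y Qt ≠ 0 := by
    by_contra hcon
    push Not at hcon
    obtain ⟨b, hb, hb'⟩ := null (K := K) 𝓔 Qt hcon
    obtain ⟨x0, hx0, hx0'⟩ := hpt b hb
    obtain ⟨z₀, hz₀, hz₀f⟩ := hT.self x0 (hVU hx0)
    have h1 := hb' x0 z₀ hx0' hz₀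
    rw [hQt, evX_bind, funext hz₀f] at h1
    exact hQ x0 hx0 h1
  obtain ⟨u, v, hv, huv⟩ := galois (X := X) (MvPolynomial.aeval y Pt / MvPolynomial.aeval y Qt) (by
    intro s
    let s' : K →ₐ[MvPolynomial X ℂ] K := (s.restrictScalars (MvPolynomial X ℂ)).toAlgHom
    have hs : ∀ p : MvPolynomial τ (MvPolynomial X ℂ), s (MvPolynomial.aeval y p) =
        MvPolynomial.aeval (fun i => s (y i)) p := by
      intro p
      exact MvPolynomial.comp_aeval_apply y s' p
    have h1 := key y (fun i => s (y i)) hy (fun E hE => by rw [← hs, hy E hE, map_zero])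
    rw [← hs, ← hs] at h1
    have h2 : s (MvPolynomial.aeval y Qt) ≠ 0 := by
      rw [Ne, map_eq_zero]
      exact hyQ
    rw [map_div₀, div_eq_div_iff h2 hyQ]
    exact h1.symm)
  refine ⟨u, v, hv, ?_⟩
  have hvan : ∀ y' : τ → K, (∀ E ∈ 𝓔, MvPolynomial.aeval y' E = 0) →
      MvPolynomial.aeval y' (MvPolynomial.C v * Pt - MvPolynomial.C u * Qt) = 0 := by
    intro y' hy'
    rw [map_sub, map_mul, map_mul, MvPolynomial.aeval_C, MvPolynomial.aeval_C]
    have h1 := key y y' hy hy'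
    have h2 : algebraMap (MvPolynomial X ℂ) K v * MvPolynomial.aeval y Pt =
        algebraMap (MvPolynomial X ℂ) K u * MvPolynomial.aeval y Qt := by
      rw [← huv, mul_assoc, div_mul_cancel₀ _ hyQ]
    apply mul_right_cancel₀ hyQ
    rw [zero_mul, sub_mul, mul_assoc, ← h1, ← mul_assoc, h2]
    ring
  obtain ⟨b, hb, hb'⟩ := null (K := K) 𝓔 _ hvan
  intro x hx
  by_contra hne
  have hcont : ContinuousOn (fun x => MvPolynomial.eval x v * g x - MvPolynomial.eval x u) V :=
    ((MvPolynomial.continuous_eval _).continuousOn.mul hg.continuousOn).sub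
      (MvPolynomial.continuous_eval _).continuousOn
  have h1 : ∀ᶠ y in 𝓝 x, MvPolynomial.eval y v * g y - MvPolynomial.eval y u ≠ 0 :=
    (hcont.continuousAt (hVo.mem_nhds hx)).eventually_ne (sub_ne_zero.2 hne)
  obtain ⟨O, hO, hOo, hxO⟩ := eventually_nhds_iff.1 (h1.and (hVo.mem_nhds hx))
  apply hb
  refine poly_zero hOo ⟨x, hxO⟩ _ fun t ht => ?_
  by_contra ht0
  obtain ⟨h2, h3⟩ := hO t ht
  apply h2
  obtain ⟨z₀, hz₀, hz₀f⟩ := hT.self t (hVU h3)
  have h4 := hb' t z₀ ht0 hz₀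
  rw [MvPolynomial.eval₂_sub, MvPolynomial.eval₂_mul, MvPolynomial.eval₂_mul, MvPolynomial.eval₂_C,
    MvPolynomial.eval₂_C, hPt, hQt, evX_bind, evX_bind, funext hz₀f] at h4
  have h5 := hPQ t h3
  rw [evM_eq, evM_eq] at h5
  rw [← h5] at h4
  have h6 : evX t (fun i => f i t) Q * (MvPolynomial.eval t v * g t - MvPolynomial.eval t u) = 0 := by
    rw [← h4]
    ring
  exact (mul_eq_zero.1 h6).resolve_left (hQ t h3)

end Pool.Agent.Run7.h10.BM
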