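import Mathlib

/-!
# Specialization of algebraic elements over `ℂ[x]`
-/

set_option autoImplicit false

namespace Pool.Agent.Run7.h10.BM

/-- homomorphisms to `ℂ` extend to the integral closure -/
theorem ext_int {A K : Type} [CommRing A] [Field K] [Algebra A K] [FaithfulSMul A K] (f : A →+* ℂ) :
    ∃ ψ : integralClosure A K →+* ℂ, ∀ a, ψ (algebraMap A (integralClosure A K) a) = f a := by
  have hfi : Function.Injective (algebraMap A K) := FaithfulSMul.algebraMap_injective A K
  have hdom : IsDomain A := hfi.isDomain _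
  have hp : (RingHom.ker f).IsPrime := RingHom.ker_isPrime f
  have hinj : Function.Injective (algebraMap A (integralClosure A K)) := by
    intro a b h
    exact hfi (congrArg Subtype.val h)
  obtain ⟨Q, hQ1, hQ2⟩ := Ideal.exists_ideal_over_prime_of_isIntegral_of_isDomain (S := integralClosure A K)
    (RingHom.ker f) (by
      rw [(RingHom.injective_iff_ker_eq_bot _).1 hinj]
      exact bot_le)
  set P : Ideal A := Q.comap (algebraMap A (integralClosure A K)) with hP
  have hPp : P.IsPrime := by rw [hQ2]; exact hp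
  have hPf : ∀ a ∈ P, f a = 0 := by
    intro a ha
    rw [hQ2] at ha
    exact ha
  let fb : A ⧸ P →+* ℂ := Ideal.Quotient.lift P f hPf
  let : Algebra (A ⧸ P) ℂ := fb.toAlgebra
  let : Algebra (A ⧸ P) (integralClosure A K ⧸ Q) := Ideal.quotientAlgebra
  have hd1 : IsDomain (A ⧸ P) := Ideal.Quotient.isDomain P
  have hd2 : IsDomain (integralClosure A K ⧸ Q) := Ideal.Quotient.isDomain Q
  have hi1 : Function.Injective (algebraMap (A ⧸ P) ℂ) := by
    rw [injective_iff_map_eq_zero]
    intro a ha
    obtain ⟨a, rfl⟩ := Ideal.Quotient.mk_surjective a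
    rw [Ideal.Quotient.eq_zero_iff_mem, hQ2]
    exact ha
  have hi2 : Function.Injective (algebraMap (A ⧸ P) (integralClosure A K ⧸ Q)) := Ideal.algebraMap_quotient_injective
  have ht1 : Module.IsTorsionFree (A ⧸ P) ℂ := by
    have : FaithfulSMul (A ⧸ P) ℂ := (faithfulSMul_iff_algebraMap_injective _ _).2 hi1
    infer_instance
  have ht2 : Module.IsTorsionFree (A ⧸ P) (integralClosure A K ⧸ Q) := by
    have : FaithfulSMul (A ⧸ P) (integralClosure A K ⧸ Q) := (faithfulSMul_iff_algebraMap_injective _ _).2 hi2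
    infer_instance
  have hint : Algebra.IsIntegral (A ⧸ P) (integralClosure A K ⧸ Q) := by
    refine ⟨fun y => ?_⟩
    obtain ⟨y, rfl⟩ := Ideal.Quotient.mk_surjective y
    obtain ⟨p, hp1, hp2⟩ := Algebra.IsIntegral.isIntegral (R := A) y
    refine ⟨p.map (Ideal.Quotient.mk P), hp1.map _, ?_⟩
    rw [Polynomial.eval₂_map]
    have h1 : (algebraMap (A ⧸ P) (integralClosure A K ⧸ Q)).comp (Ideal.Quotient.mk P) =
        (Ideal.Quotient.mk Q).comp (algebraMap A (integralClosure A K)) := rfl
    rw [h1, ← Polynomial.hom_eval₂, hp2, map_zero]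
  have halg : Algebra.IsAlgebraic (A ⧸ P) (integralClosure A K ⧸ Q) := inferInstance
  let ψ : (integralClosure A K ⧸ Q) →ₐ[A ⧸ P] ℂ := IsAlgClosed.lift
  refine ⟨ψ.toRingHom.comp (Ideal.Quotient.mk Q), fun a => ?_⟩
  have h1 : Ideal.Quotient.mk Q (algebraMap A (integralClosure A K) a) =
      algebraMap (A ⧸ P) (integralClosure A K ⧸ Q) (Ideal.Quotient.mk P a) := rfl
  rw [RingHom.comp_apply, h1]
  exact ψ.commutes _

/-- specialization of finitely many algebraic elements over `ℂ[x]`: all relations are preserved -/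
theorem spec {X : Type} {K : Type} [Field K] [Algebra (MvPolynomial X ℂ) K]
    [FaithfulSMul (MvPolynomial X ℂ) K] [Algebra.IsAlgebraic (MvPolynomial X ℂ) K] {I : Type} [Finite I] (z : I → K) :
    ∃ b : MvPolynomial X ℂ, b ≠ 0 ∧ ∀ x0 : X → ℂ, MvPolynomial.eval x0 b ≠ 0 → ∃ z0 : I → ℂ,
      ∀ p : MvPolynomial I (MvPolynomial X ℂ), MvPolynomial.aeval z p = 0 →
        MvPolynomial.eval₂ (MvPolynomial.eval x0) z0 p = 0 := by
  classical
  cases nonempty_fintype I
  choose y hy0 hy using fun i => IsAlgebraic.exists_integral_multiple (R := MvPolynomial X ℂ)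
    (Algebra.IsAlgebraic.isAlgebraic (z i))
  set b : MvPolynomial X ℂ := ∏ i, y i with hb
  have hb0 : b ≠ 0 := Finset.prod_ne_zero_iff.2 fun i _ => hy0 i
  refine ⟨b, hb0, fun x0 hx0 => ?_⟩
  have hinj : Function.Injective (algebraMap (MvPolynomial X ℂ) K) := FaithfulSMul.algebraMap_injective _ _
  let A := Localization.Away b
  have hu1 : IsUnit (algebraMap (MvPolynomial X ℂ) K b) := by
    rw [isUnit_iff_ne_zero, Ne, map_eq_zero_iff _ hinj]
    exact hb0
  let g : A →+* K := IsLocalization.Away.lift (S := A) b (g := algebraMap (MvPolynomial X ℂ) K) hu1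
  let : Algebra A K := g.toAlgebra
  have htow : IsScalarTower (MvPolynomial X ℂ) A K := IsScalarTower.of_algebraMap_eq fun r =>
    (IsLocalization.Away.lift_eq (S := A) b hu1 r).symm
  have hginj : Function.Injective (algebraMap A K) := by
    have h1 : Function.Injective g := by
      refine IsLocalization.lift_injective_iff (S := A) (M := Submonoid.powers b) _ |>.2 fun x y' => ?_
      constructor
      · intro h
        rw [hinj.eq_iff]
        have hbd : Submonoid.powers b ≤ nonZeroDivisors (MvPolynomial X ℂ) :=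
          powers_le_nonZeroDivisors_of_noZeroDivisors hb0
        exact IsLocalization.injective A hbd h
      · intro h
        rw [hinj h]
    exact h1
  have hfA : FaithfulSMul A K := (faithfulSMul_iff_algebraMap_injective _ _).2 hginj
  have hzi : ∀ i, IsIntegral A (z i) := by
    intro i
    have h1 : IsIntegral A (y i • z i) := (hy i).tower_top
    have h2 : IsUnit (algebraMap (MvPolynomial X ℂ) A (y i)) := by
      have h3 : IsUnit (algebraMap (MvPolynomial X ℂ) A b) := IsLocalization.Away.algebraMap_isUnit b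
      exact isUnit_of_dvd_unit (map_dvd _ (Finset.dvd_prod_of_mem y (Finset.mem_univ i))) h3
    obtain ⟨u, hu⟩ := h2
    have h3 : z i = algebraMap A K (↑u⁻¹ : A) * (y i • z i) := by
      have h4 : y i • z i = algebraMap A K (u : A) * z i := by
        rw [hu, ← IsScalarTower.algebraMap_apply, Algebra.smul_def]
      rw [h4, ← mul_assoc, ← map_mul, Units.inv_mul, map_one, one_mul]
    rw [h3]
    exact isIntegral_algebraMap.mul h1
  have hu2 : IsUnit (MvPolynomial.eval x0 b) := isUnit_iff_ne_zero.2 hx0
  let f : A →+* ℂ := IsLocalization.Away.lift (S := A) b (g := MvPolynomial.eval x0) hu2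
  obtain ⟨ψ, hψ⟩ := ext_int (K := K) f
  let z' : I → integralClosure A K := fun i => ⟨z i, hzi i⟩
  let c : MvPolynomial X ℂ →+* integralClosure A K :=
    (algebraMap A (integralClosure A K)).comp (algebraMap (MvPolynomial X ℂ) A)
  refine ⟨fun i => ψ (z' i), fun p hp => ?_⟩
  have h1 : ψ.comp c = MvPolynomial.eval x0 := by
    refine RingHom.ext fun r => ?_
    rw [RingHom.comp_apply, RingHom.comp_apply, hψ]
    exact IsLocalization.Away.lift_eq (S := A) b hu2 r
  have h2 : MvPolynomial.eval₂ c z' p = 0 := by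
    apply Subtype.ext
    have h3 : ((MvPolynomial.eval₂ c z' p : integralClosure A K) : K) =
        (integralClosure A K).subtype (MvPolynomial.eval₂ c z' p) := rfl
    rw [h3, ZeroMemClass.coe_zero, ← hp, MvPolynomial.aeval_def]
    have h4 := MvPolynomial.hom_eval₂ p c (integralClosure A K).subtype z'
    refine Eq.trans h4 ?_
    congr 1
    refine RingHom.ext fun r => ?_
    exact (IsScalarTower.algebraMap_apply (MvPolynomial X ℂ) A K r).symm
  rw [← h1]
  have h3 := MvPolynomial.hom_eval₂ p c ψ z'
  rw [h2, map_zero] at h3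
  exact h3.symm

end Pool.Agent.Run7.h10.BM
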